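import Mathlib
import Pool.Agent.H520R2.NMDefs
import Pool.Agent.H559R4.SatDefs
import Pool.Agent.H559R6.Distill

/-!
# No OR-distillation of CNF-SAT by circuits with few non-monotone gates

A circuit `D` of AND and OR gates of fan-in two and of arbitrary further gates, the `i`-th of them
with `w i` input wires, reads `t` CNF formulas `φ 1, ..., φ t` with `n` variables and `M` clauses
(given by their incidence matrices) and has `m` output wires. Suppose that there is a set
`R ⊆ {0,1}^m` (any set, however complicated) such that the output lies in `R` if and only if some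
`φ i` is satisfiable (OR-distillation), or such that it lies in `R` if and only if all `φ i` are
satisfiable (AND-distillation).

For every `δ > 0` there is a `c` such that, if `n` is large, `M ≥ n ^ c` and
`(m + 1) * ∏ (w i + 1) ≤ t`, then `D` has nearly the size of an exhaustive search through the
assignments of a single formula:

  `2 ^ ((1 - δ) * n) ≤ number of AND and OR gates + ∑ w i + m`.

In particular monotone circuits cannot distill `m + 1` instances into `m` bits, and circuits with
`s` NOT gates cannot distill `t` instances into `m` bits if `s ≤ log₂ (t / (m + 1))`; note that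
`log₂ (2 * t * M * n + 1) + 1 = log₂ t + O(log n)` NOT gates suffice for all circuits.

Proof. Add the membership in `R` as one further arbitrary gate, with `m` inputs. Put unsatisfiable
formulas in place of the `φ i` one after the other such that each time some of the bits that enter
the arbitrary gates change. This is possible at most `(m + 1) * ∏ (w i + 1) - 1 < t` times, so that
there is an `i` such that nothing changes as long as `φ i` is unsatisfiable, and then the
satisfiability of `φ i` can be told by a monotone circuit.
-/

namespace Pool.Agent.Results.MP_609cce_lc.FewNonMonotoneGates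

open Filter Pool.Agent.H559R4 Pool.Agent.H520R2.NM

theorem result (δ : ℝ) (hδ : 0 < δ) : ∃ c : ℕ, ∀ᶠ n : ℕ in atTop,
    ∀ {M t m N : ℕ} (D : Circuit (Fin t × Fin M × Fin n × Bool) N)
      (out : Fin m → Wire (Fin t × Fin M × Fin n × Bool) N) (R : Set (Fin m → Bool)),
      ((∀ φ : Fin t × Fin M × Fin n × Bool → Bool,
        (fun j => (out j).eval φ (D.vals φ)) ∈ R ↔ ∃ i, Sat (fun l => φ (i, l))) ∨
      (∀ φ : Fin t × Fin M × Fin n × Bool → Bool,
        (fun j => (out j).eval φ (D.vals φ)) ∈ R ↔ ∀ i, Sat (fun l => φ (i, l)))) →
      n ^ c ≤ M → (m + 1) * (D.fanins.map (· + 1)).prod ≤ t →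
      (2 : ℝ) ^ ((1 - δ) * n) ≤ ((D.size + D.fanins.sum + m : ℕ) : ℝ) :=
  Pool.Agent.H559R6.dist_main δ hδ

end Pool.Agent.Results.MP_609cce_lc.FewNonMonotoneGates
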