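import Pool.Agent.H752.GM.Final
import Pool.Agent.H375R3.GM.Dist
import Pool.Agent.H227R2.GM.DistillLow

/-!
# How many oracles allow OR-distillation?

For every gauge `f`, the set of the oracles `A` relative to which some `NP`-complete language has
an OR-distillation algorithm is a null set for `f` if and only if, for every `ε > 0`,
`f N ≤ 2 ^ ((log N) ^ ε)` for infinitely many `N`. The same holds for every set of oracles between
`{A | P = PSPACE}` and this set.
-/

namespace Pool.Agent.Results.MP_609cce_lc.GaugeThreshold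

open Pool.Agent.NPC Pool.Agent.H620R2.Gauge Pool.Agent.H752.GM Filter

theorem result (f : ℕ → ℝ) :
    (Null f {A : Oracle | ∃ R, NPComplete A R ∧ Distillable A R} ↔
      ∀ ε : ℝ, 0 < ε → ∃ᶠ N : ℕ in atTop, f N ≤ 2 ^ (Real.logb 2 N) ^ ε) ∧
    ∀ O : Set Oracle, (∀ A : Oracle, (∀ L, IsPSPACE A L → IsP A L) → A ∈ O) →
      O ⊆ {A : Oracle | ∃ R, NPComplete A R ∧ Distillable A R} →
      (Null f O ↔
        ∀ ε : ℝ, 0 < ε → ∃ᶠ N : ℕ in atTop, f N ≤ 2 ^ (Real.logb 2 N) ^ ε) :=
  ⟨final_distill t_distill f _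
      (fun A hA => t_distill_low A fun L hL => hA L (IsNP.isPSPACE hL)) (fun _ hA => hA),
    fun O h1 h2 => final_distill t_distill f O h1 fun A hA => h2 hA⟩

end Pool.Agent.Results.MP_609cce_lc.GaugeThreshold
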