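import Mathlib
import Pool.Agent.H820R3.AC.Main

/-!
# No OR-distillation and no AND-distillation of SAT by circuits with modular counting gates

Let `p` be a prime number. Alice knows `t` CNF formulas with `n` variables, all of whose clauses
have at most three literals, and she wants to tell Bob, who is computationally unbounded, whether
some of them is satisfiable (or whether all of them are). She can only use circuits of bounded
depth `h` with unbounded fan-in AND, OR and MOD-p gates (and negations), with `s` gates in total,
but the two may interact, Bob's messages are free, and the protocol may be random with one-sided
error `1 - 2 ^ (-e)`. We show that the number `m` of bits that Alice sends satisfies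

  `t * n ≤ C * (m + t + e) * (log₂ s + 1) ^ (2 * h + 3)`,

where `C` depends only on `p` and `h` (`s` is assumed to be at least `t * n`). So if `s` is
polynomial in `n` then Alice cannot do much better than to send all formulas. In particular there
is no OR-distillation of SAT, into any language whatsoever, by such circuits, even if they are
given some advice which depends on what they have sent so far.

Proof. For a prime `q ≠ p` let block `i` of a string `y` of `t * N` bits, `N ≈ n / q`, be sent to
a formula with `n` variables which is satisfiable if and only if `q` does not divide the number of
ones of the block (for AND: if it does); each bit of the formula is a constant or a bit of the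
block or its negation. Then some answer of Alice's is given on a fraction of `2 ^ (-m - e - O(t))`
of all strings `y`, and only on strings all of whose blocks have weights divisible by `q`. The
event that Alice gives this answer agrees outside of a set of density `2 ^ (-L)` with a function
of degree `L * (log s) ^ O(h)` over a field of characteristic `p`: take a majority of `L`
independent probabilistic polynomials. There is a function of degree `t N / 2 - j` that vanishes on
this exceptional set but not on the whole event, if `j ^ 2 ≈ (m + e + t) t N` and `L` is of the
order of `m + e + t` (a rank bound by averaging over Hamming balls). The product of the two
functions is not zero and it is supported on the strings all of whose blocks have weights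
divisible by `q`; over a field with a primitive `q`-th root of unity such a function has degree at
least `t N / 2`, because on these strings every function has degree at most `t N / 2`.
-/

namespace Pool.Agent.Results.MP_609cce_lc.ModCircuits

open Pool.Agent.H820R3.AC

theorem result (p : ℕ) (hp : p.Prime) (h : ℕ) : ∃ C : ℕ, ∀ {t M n m e s : ℕ} {Ω : Type}
    [Fintype Ω] [Nonempty Ω] (P : Ω → Protocol (Fin t × Fin M × Fin n × Bool) m)
    (A : Ω → Set (Fin m → Bool)), (∀ ρ, (P ρ).Small h s) → t * n ≤ s → 2 * n ≤ M →
    (OrProtocol p e P A ∨ AndProtocol p e P A) →
    t * n ≤ C * (m + t + e) * (Nat.log 2 s + 1) ^ (2 * h + 3) :=
  main_bound p hp h

end Pool.Agent.Results.MP_609cce_lc.ModCircuits
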