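import Pool.Agent.H550R2.LP.DistNum

set_option autoImplicit false

/-! # Distillation by reductions with symmetric linear programs

The input consists of `t` `k`-CNFs with `n` variables each, the output is a string indexed by a
finite set `O`. The group of all negation patterns of the `t n` variables acts on the input (by
`nB`) and, in a way that the reduction may choose, on `O`. Each output bit is computed by an adaptive
algorithm, a decision tree whose tests are linear programs on the input, and its programs are
symmetric under the negation patterns that fix this output. A random reduction is a probability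
distribution on such reductions. -/

namespace Pool.Agent.Results.MP_609cce_lc.SymmetricDistillation

open Pool.Agent.H550R2.Lin
open Pool.Agent.H30R2.NS (Clause)

/-- Let `g` be a Boolean function of `t` arguments that depends on all of them (for example OR,
AND or PARITY), and let a random reduction `F` map `t` `k`-CNFs with `n` variables and at most
`2 ^ (k - 1) * (n + 1)` clauses each to a string of `|O|` bits which, with probability at least
`2 / 3`, lies in a fixed language `L` if and only if `g` is true for the answers to the `t`
instances. If `18 |O| ≤ t`, then the expected total number `F.size` of nonnegative variables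
satisfies `2 ^ ((1 - C (ln k) ^ 2 / k) n) ≤ |O| F.size + 1` with an absolute constant `C`, and for
`k = 3` it satisfies `10 ^ ⌊n / 2400⌋ ≤ 4 (|O| F.size + 1)`. On the other hand one linear program
with `2 ^ n` nonnegative variables for each formula computes the `t` answers. -/
theorem result :
    (∃ C : ℝ, ∀ k n t : ℕ, 3 ≤ k → k ≤ n → 0 < t → ∀ (O : Type) [Fintype O],
      18 * Fintype.card O ≤ t →
      ∀ (F : RRed (Fin t × Clause k (Fin n)) O (Fin t × Fin n) (nB k)) (L : Set (O → Bool))
        (g : (Fin t → Bool) → Bool), Dep g → F.Distills L g →
      (2 : ℝ) ^ ((1 - C * (Real.log k ^ 2 / k)) * n) ≤ Fintype.card O * F.size + 1) ∧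
    (∀ n t : ℕ, 0 < t → ∀ (O : Type) [Fintype O], 18 * Fintype.card O ≤ t →
      ∀ (F : RRed (Fin t × Clause 3 (Fin n)) O (Fin t × Fin n) (nB 3)) (L : Set (O → Bool))
        (g : (Fin t → Bool) → Bool), Dep g → F.Distills L g →
      (10 : ℝ) ^ (n / 2400) ≤ 4 * (Fintype.card O * F.size + 1)) ∧
    (∀ t k n : ℕ, ∃ F : Red (Fin t × Clause k (Fin n)) (Fin t) (Fin t × Fin n) (nB k),
      F.size = t * 2 ^ n ∧ ∀ Φ : Fin t → Set (Clause k (Fin n)), F.out (indB Φ) = ans Φ) :=
  ⟨dist_k, fun n t ht O _ hO F L g hg hF => dist_three n t ht O hO F L g hg hF, dist_upper⟩

end Pool.Agent.Results.MP_609cce_lc.SymmetricDistillation
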